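import Mathlib
import Pool.Agent.MP_4d76c1_gt.TensorDist
import Pool.Agent.Mg.F4d76c1.G19288f

open Pool.Agent.MP_4d76c1_gt

/-- There is a smooth Riemannian metric on the torus `ℝ³/ℤ³` (a `ℤ³`-periodic metric tensor `g` on
the universal cover `ℝ³`) with only finitely many geometrically distinct minimal geodesics. -/
theorem Pool.Agent.Results.MP_4d76c1_gt.FiniteMinimalGeodesicsT3.result :
    ∃ g : Fin 3 → Fin 3 → (Fin 3 → ℝ) → ℝ,
      (∀ (i j : Fin 3) (n : ℕ), ContDiff ℝ n (g i j)) ∧ (∀ i j, g i j = g j i) ∧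
      (∀ x v : Fin 3 → ℝ, v ≠ 0 → 0 < ∑ i, ∑ j, g i j x * v i * v j) ∧
      (∀ (i j : Fin 3) (x : Fin 3 → ℝ) (k : Fin 3 → ℤ),
        g i j (fun r => x r + (k r : ℝ)) = g i j x) ∧
      ∃ S : Set (ℝ → Fin 3 → AddCircle (1 : ℝ)), S.Finite ∧
        ∀ c : ℝ → Fin 3 → ℝ, (∀ s t, tensorDist g (c s) (c t) = ENNReal.ofReal |t - s|) →
          ∃ c₀ ∈ S, ∃ a b : ℝ, (a = 1 ∨ a = -1) ∧
            ∀ t i, ((c t i : ℝ) : AddCircle (1 : ℝ)) = c₀ (a * t + b) i :=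
  main_tensor
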