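import Mathlib
import Pool.Agent.MP_4d76c1_gt.Gam.Fin

/-- Let `X` be a proper length space on which a group `Γ` acts freely, properly and cocompactly by
isometries (the universal cover of a closed Riemannian manifold `M` and its deck group), and let
`Γ` map onto `ℤⁿ`, `n ≥ 2`. Then `M = X/Γ` has at least `min (3n², 4n² - 3n, (n+1)(2n+1))`
geometrically distinct projections of isometric lines. -/
theorem Pool.Agent.Results.MP_4d76c1_gt.LowerBound.result (n : ℕ) (hn : 2 ≤ n) (X Γ M : Type)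
    [MetricSpace X] [ProperSpace X] [Group Γ] [MulAction Γ X]
    (hlen : ∀ (x y : X) (L : ℝ), dist x y < L →
      ∃ p : ℝ → X, LipschitzWith 1 p ∧ p 0 = x ∧ p L = y)
    (hiso : ∀ (g : Γ) (x y : X), dist (g • x) (g • y) = dist x y)
    (hfree : ∀ (g : Γ) (x : X), g • x = x → g = 1)
    (hprop : ∀ (x : X) (R : ℝ), {g : Γ | dist x (g • x) ≤ R}.Finite)
    (hcoc : ∃ (x₀ : X) (R : ℝ), ∀ x : X, ∃ g : Γ, dist (g • x) x₀ ≤ R)
    (φ : Γ →* Multiplicative (Fin n → ℤ)) (hφ : Function.Surjective φ)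
    (π : X → M) (hπ : ∀ x y : X, π x = π y ↔ ∃ g : Γ, y = g • x)
    (S : Finset (ℝ → M))
    (hS : ∀ c : ℝ → X, (∀ s t, dist (c s) (c t) = |t - s|) →
      ∃ c₀ ∈ S, ∃ a b : ℝ, (a = 1 ∨ a = -1) ∧ ∀ t, π (c t) = c₀ (a * t + b)) :
    min (min (3 * n ^ 2) (4 * n ^ 2 - 3 * n)) ((n + 1) * (2 * n + 1)) ≤ S.card := by
  let _ := Pool.Agent.MP_4d76c1_gt.Gam.mkDk n X Γ φ hφ
  have h := Pool.Agent.MP_4d76c1_gt.Gam.a_main n X hn ⟨inferInstance, hiso, hprop, hcoc, hlen⟩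
    hfree M π (fun x y e => (hπ x y).1 e) S fun c hc =>
      hS c fun s t => by rw [hc.dist_eq, Real.dist_eq, abs_sub_comm]
  refine le_trans (min_le_min_right _ (le_of_eq ?_)) h
  rw [mul_min, Nat.mul_sub]
  congr 1
  · ring
  · congr 1 <;> ring
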